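import Pool.Agent.W21.RV.Defs
import Pool.Agent.H442R2.BX.Di
import Pool.Agent.H442R2.BX.Pr

/-!
RV project, tasks DI and PR: the diagonal and the prime side (adapted from the BX project).
-/

set_option autoImplicit false

namespace Pool.Agent.W419.RV

open Finset
open Pool.Agent.H442R2
open Pool.Agent.H442R2.KF
open Pool.Agent.H442R2.BX hiding St_RC St_PB St_NC St_CO St_DI St_TT St_PR St_BK St_FI DI PR
open Pool.Agent.W21

/-- size of the difference -/
theorem abs_sub_bd {N : ℕ} (hN : (1 : ℝ) ≤ N) {a n : ℤ} (ha : |(a : ℝ)| ≤ (N : ℝ) ^ 2) :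
    |((n - a : ℤ) : ℝ)| ≤ (N : ℝ) ^ 2 * (1 + |(n : ℝ)| / N) := by
  push_cast
  have h1 : |(n : ℝ) - a| ≤ |(n : ℝ)| + |(a : ℝ)| := abs_sub _ _
  have h2 : (N : ℝ) ^ 2 * (1 + |(n : ℝ)| / N) = (N : ℝ) ^ 2 + N * |(n : ℝ)| := by
    field_simp
  have h3 : |(n : ℝ)| ≤ N * |(n : ℝ)| := le_mul_of_one_le_left (abs_nonneg _) hN
  rw [h2]
  linarith

open Pool.Agent.H442R2.BX.TaskDI in
/-- Task DI. -/
theorem DI (hPB : RV.St_PB) (hGS : BX.St_GS) (hGW : BX.St_GW) : RV.St_DI := by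
  intro ε hε
  obtain ⟨N₁, C₁, hC₁, hP⟩ := hPB ε hε
  obtain ⟨N₂, hG⟩ := hGW
  refine ⟨max (max N₁ N₂) 1, 12 * C₁ ^ 2, by positivity, ?_⟩
  intro N z X hN hX hz hzN lam hlam c hc a ha
  have hN1 : N₁ ≤ N := (le_max_left _ _).trans ((le_max_left _ _).trans hN)
  have hN2 : N₂ ≤ N := (le_max_right _ _).trans ((le_max_left _ _).trans hN)
  have hN3 : 1 ≤ N := (le_max_right _ _).trans hN
  have hNr : (1 : ℝ) ≤ N := by exact_mod_cast hN3
  have hsq : ∀ n : ℤ, rf c X a n * rf c X a n ≤ C₁ ^ 2 * (1 + |(n : ℝ)| / N) := by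
    intro n
    have h0 : 0 ≤ |(n : ℝ)| / N := div_nonneg (abs_nonneg _) (by linarith)
    have h1 := hP N X hN1 hX c hc a n (1 + |(n : ℝ)| / N) (by linarith) (abs_sub_bd hNr ha)
    have h2 : (((1 + |(n : ℝ)| / N) ^ (1 / 4 : ℝ)) ^ 2 : ℝ) ≤ 1 + |(n : ℝ)| / N := by
      rw [← Real.rpow_natCast, ← Real.rpow_mul (by linarith)]
      calc (1 + |(n : ℝ)| / N) ^ ((1 / 4 : ℝ) * (2 : ℕ))
          ≤ (1 + |(n : ℝ)| / N) ^ (1 : ℝ) :=
            Real.rpow_le_rpow_of_exponent_le (by linarith) (by norm_num)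
        _ = _ := Real.rpow_one _
    calc rf c X a n * rf c X a n = |rf c X a n| ^ 2 := by rw [sq_abs, sq]
      _ ≤ (C₁ * (1 + |(n : ℝ)| / N) ^ (1 / 4 : ℝ)) ^ 2 :=
          pow_le_pow_left₀ (abs_nonneg _) h1 2
      _ = C₁ ^ 2 * ((1 + |(n : ℝ)| / N) ^ (1 / 4 : ℝ)) ^ 2 := by ring
      _ ≤ _ := mul_le_mul_of_nonneg_left h2 (by positivity)
  have hle : ∀ n : ℤ, Wt N n * nuS lam z n * (rf c X a n * rf c X a n) ≤
      2 * C₁ ^ 2 * (Wt (2 * N) n * nuS lam z n) := by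
    intro n
    have hw : 0 ≤ Wt N n := (Real.exp_pos _).le
    have hnu := nuS_nonneg lam z n
    calc Wt N n * nuS lam z n * (rf c X a n * rf c X a n)
        ≤ Wt N n * nuS lam z n * (C₁ ^ 2 * (1 + |(n : ℝ)| / N)) :=
          mul_le_mul_of_nonneg_left (hsq n) (mul_nonneg hw hnu)
      _ = C₁ ^ 2 * nuS lam z n * (Wt N n * (1 + |(n : ℝ)| / N)) := by ring
      _ ≤ C₁ ^ 2 * nuS lam z n * (2 * Wt (2 * N) n) :=
          mul_le_mul_of_nonneg_left ((hGS N hN3).1 n) (mul_nonneg (sq_nonneg _) hnu)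
      _ = _ := by ring
  have hs := (sum_nuS (lam := lam) (z := z) hlam.bd (2 * N) (by omega)).mul_left (2 * C₁ ^ 2)
  have h0 : ∀ n : ℤ, 0 ≤ Wt N n * nuS lam z n * (rf c X a n * rf c X a n) := fun n =>
    mul_nonneg (mul_nonneg (Real.exp_pos _).le (nuS_nonneg _ _ _)) (mul_self_nonneg _)
  have hs0 : Summable (fun n : ℤ => Wt N n * nuS lam z n * (rf c X a n * rf c X a n)) :=
    Summable.of_nonneg_of_le h0 hle hs
  have hfin := hG (2 * N) z (by omega) hz (hzN.trans (by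
    refine Real.rpow_le_rpow (by linarith) ?_ (by norm_num)
    push_cast
    linarith)) lam hlam
  calc ∑' n : ℤ, Wt N n * nuS lam z n * (rf c X a n * rf c X a n)
      ≤ ∑' n : ℤ, 2 * C₁ ^ 2 * (Wt (2 * N) n * nuS lam z n) := hs0.tsum_le_tsum hle hs
    _ = 2 * C₁ ^ 2 * ∑' n : ℤ, Wt (2 * N) n * nuS lam z n := tsum_mul_left
    _ ≤ 2 * C₁ ^ 2 * (3 * ((2 * N : ℕ) : ℝ) / Real.log z) :=
        mul_le_mul_of_nonneg_left hfin (by positivity)
    _ = 12 * C₁ ^ 2 * N / Real.log z := by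
        push_cast
        ring

open Pool.Agent.H442R2.BX.TaskPR in
/-- Task PR. -/
theorem PR (hPB : RV.St_PB) (hRT : BX.St_RT) : RV.St_PR := by
  intro ε hε
  obtain ⟨N₁, C₁, hC₁, hPB⟩ := hPB ε hε
  obtain ⟨C₂, hC₂, hRT⟩ := hRT ε hε
  refine ⟨max N₁ 2, 2 * C₁ + 1 + C₂, by positivity, ?_⟩
  intro N z X hN hXN f hf a ha T hT
  have hN1 : N₁ ≤ N := (le_max_left _ _).trans hN
  have hN2 : 2 ≤ N := (le_max_right _ _).trans hN
  have hNpos : (0 : ℝ) < N := by exact_mod_cast (by omega : 0 < N)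
  have hCof : CofR ((N : ℝ) ^ ε) X (co f N a T) :=
    ⟨fun d => co_bd f N a T d, fun d hd => hT d (co_mem hd)⟩
  refine ⟨co f N a T, hCof, fun d hd => co_mem hd, ?_⟩
  set c := co f N a T with hc
  set P := (Icc 1 N).filter Nat.Prime with hP
  set F := ∑ p ∈ P, f p with hF
  -- number of primes
  have hPcard : (P.card : ℝ) ≤ N := by
    have : P.card ≤ (Icc 1 N).card := Finset.card_filter_le _ _
    rw [Nat.card_Icc] at this
    exact_mod_cast (by omega : P.card ≤ N)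
  have hFabs : |F| ≤ N := by
    refine (Finset.abs_sum_le_sum_abs _ _).trans ?_
    refine (Finset.sum_le_sum (fun p _ => hf p)).trans ?_
    simpa using hPcard
  -- the error from the totients
  have hE : |F * ∑ d ∈ T, c d * (1 / (Nat.totient d : ℝ) - 1 / (d : ℝ))| ≤
      C₂ * (N : ℝ) ^ (1 - ε / 2) := by
    have hnn : ∀ d : ℕ, 1 ≤ d → 0 ≤ 1 / (Nat.totient d : ℝ) - 1 / (d : ℝ) := by
      intro d hd
      have h1 : 0 < Nat.totient d := Nat.totient_pos.2 hd
      have h2 : (Nat.totient d : ℝ) ≤ d := by exact_mod_cast Nat.totient_le d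
      have h1' : (0 : ℝ) < Nat.totient d := by exact_mod_cast h1
      have := one_div_le_one_div_of_le h1' h2
      linarith
    have hs : |∑ d ∈ T, c d * (1 / (Nat.totient d : ℝ) - 1 / (d : ℝ))| ≤
        C₂ * (N : ℝ) ^ (-(ε / 2)) := by
      refine (Finset.abs_sum_le_sum_abs _ _).trans ?_
      refine le_trans ?_ (hRT N hN2)
      have hsub : T ⊆ roughs ((N : ℝ) ^ ε) N := by
        intro d hd
        have h := hT d hd
        exact mem_roughs_iff.2 ⟨⟨h.2.1.le, h.1.trans hXN⟩, h.2⟩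
      calc ∑ d ∈ T, |c d * (1 / (Nat.totient d : ℝ) - 1 / (d : ℝ))|
          ≤ ∑ d ∈ T, (1 / (Nat.totient d : ℝ) - 1 / (d : ℝ)) := by
            apply Finset.sum_le_sum
            intro d hd
            have h0 := hnn d (hT d hd).2.1.le
            rw [abs_mul, abs_of_nonneg h0]
            calc |c d| * _ ≤ 1 * (1 / (Nat.totient d : ℝ) - 1 / (d : ℝ)) :=
                  mul_le_mul_of_nonneg_right (co_bd f N a T d) h0
              _ = _ := one_mul _
        _ ≤ ∑ d ∈ roughs ((N : ℝ) ^ ε) N, (1 / (Nat.totient d : ℝ) - 1 / (d : ℝ)) := by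
            apply Finset.sum_le_sum_of_subset_of_nonneg hsub
            intro d hd _
            apply hnn
            exact (mem_roughs_iff.1 hd).1.1
    rw [abs_mul]
    calc |F| * |∑ d ∈ T, c d * (1 / (Nat.totient d : ℝ) - 1 / (d : ℝ))|
        ≤ N * (C₂ * (N : ℝ) ^ (-(ε / 2))) :=
          mul_le_mul hFabs hs (abs_nonneg _) hNpos.le
      _ = C₂ * (N : ℝ) ^ (1 - ε / 2) := by
          rw [sub_eq_add_neg, Real.rpow_add hNpos, Real.rpow_one]
          ring
  -- the main identity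
  have hT' : ∀ d ∈ T, 1 < d ∧ d ≤ X := fun d hd => ⟨(hT d hd).2.1, (hT d hd).1⟩
  have hid : ∑ d ∈ T, |Df f N a d| = ∑ p ∈ P, f p * Rf c X a p -
      F * ∑ d ∈ T, c d * (1 / (Nat.totient d : ℝ) - 1 / (d : ℝ)) := by
    have h1 : ∑ d ∈ T, |Df f N a d| = ∑ d ∈ T, c d * Df f N a d :=
      Finset.sum_congr rfl (fun d hd => (co_mul hd).symm)
    have h2 : ∑ p ∈ P, f p * Rf c X a p = ∑ d ∈ T, c d * ∑ p ∈ P, f p * dl d ((p : ℤ) - a) := by
      have h3 : ∀ p ∈ P, f p * Rf c X a p = ∑ d ∈ T, c d * (f p * dl d ((p : ℤ) - a)) := by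
        intro p _
        rw [hc, Rf_eq f N X a T hT', Finset.mul_sum]
        apply Finset.sum_congr rfl
        intro d _
        ring
      rw [Finset.sum_congr rfl h3, Finset.sum_comm]
      apply Finset.sum_congr rfl
      intro d _
      rw [Finset.mul_sum]
    rw [h1, h2, Finset.mul_sum, ← Finset.sum_sub_distrib]
    apply Finset.sum_congr rfl
    intro d _
    rw [Df_eq]
    ring
  -- replace Rf by rf
  have hself : |∑ p ∈ P, f p * (Rf c X a p - rf c X a p)| ≤ X := by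
    have hz : ∀ p ∈ P, (p : ℤ) ≠ a → f p * (Rf c X a p - rf c X a p) = 0 := by
      intro p _ hp
      unfold rf
      rw [if_neg hp, sub_self, mul_zero]
    by_cases hex : ∃ p ∈ P, (p : ℤ) = a
    · obtain ⟨p₀, hp₀, hp₀a⟩ := hex
      rw [Finset.sum_eq_single_of_mem p₀ hp₀]
      · have h1 : rf c X a (p₀ : ℤ) = 0 := by
          unfold rf
          rw [if_pos hp₀a]
        rw [h1, sub_zero, hp₀a, abs_mul]
        calc |f p₀| * |Rf c X a a| ≤ 1 * X :=
              mul_le_mul (hf p₀) (Rf_self c X a (fun d => co_bd f N a T d)) (abs_nonneg _)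
                zero_le_one
          _ = X := one_mul _
      · intro p hp hpne
        apply hz p hp
        intro h
        apply hpne
        have : (p : ℤ) = (p₀ : ℤ) := h.trans hp₀a.symm
        exact_mod_cast this
    · have h0 : ∑ p ∈ P, f p * (Rf c X a p - rf c X a p) = 0 := by
        apply Finset.sum_eq_zero
        intro p hp
        apply hz p hp
        intro h
        exact hex ⟨p, hp, h⟩
      rw [h0, abs_zero]
      positivity
  -- small primes
  have hsmall : |∑ p ∈ P.filter (fun p => ¬ z < p), f p * rf c X a p| ≤ 2 * C₁ * z := by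
    refine (Finset.abs_sum_le_sum_abs _ _).trans ?_
    have hterm : ∀ p ∈ P.filter (fun p => ¬ z < p), |f p * rf c X a p| ≤ 2 * C₁ := by
      intro p hp
      have hpP := (Finset.mem_filter.1 hp).1
      have hpN : p ≤ N := (Finset.mem_Icc.1 (Finset.mem_filter.1 hpP).1).2
      have h1 := hPB N X hN1 hXN c hCof a p (1 + |(((p : ℕ) : ℤ) : ℝ)| / N)
        (by
          have : (0 : ℝ) ≤ |(((p : ℕ) : ℤ) : ℝ)| / N := by positivity
          linarith)
        (abs_sub_bd (by exact_mod_cast (by omega : 1 ≤ N)) ha)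
      have h2 : (1 + |(((p : ℕ) : ℤ) : ℝ)| / N) ≤ 2 := by
        have h3 : |(((p : ℕ) : ℤ) : ℝ)| = (p : ℝ) := by
          rw [Int.cast_natCast]
          exact abs_of_nonneg (Nat.cast_nonneg p)
        rw [h3]
        have h4 : (p : ℝ) / N ≤ 1 := by
          rw [div_le_one hNpos]
          exact_mod_cast hpN
        linarith
      have h0 : (0 : ℝ) ≤ 1 + |(((p : ℕ) : ℤ) : ℝ)| / N := by positivity
      have h5 : (1 + |(((p : ℕ) : ℤ) : ℝ)| / N) ^ (1 / 4 : ℝ) ≤ 2 := by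
        calc (1 + |(((p : ℕ) : ℤ) : ℝ)| / N) ^ (1 / 4 : ℝ) ≤ (2 : ℝ) ^ (1 / 4 : ℝ) :=
              Real.rpow_le_rpow h0 h2 (by norm_num)
          _ ≤ (2 : ℝ) ^ (1 : ℝ) := Real.rpow_le_rpow_of_exponent_le (by norm_num) (by norm_num)
          _ = 2 := Real.rpow_one 2
      rw [abs_mul]
      calc |f p| * |rf c X a p| ≤ 1 * (C₁ * (1 + |(((p : ℕ) : ℤ) : ℝ)| / N) ^ (1 / 4 : ℝ)) :=
            mul_le_mul (hf p) h1 (abs_nonneg _) zero_le_one
        _ ≤ 2 * C₁ := by nlinarith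
    refine (Finset.sum_le_sum hterm).trans ?_
    rw [Finset.sum_const, nsmul_eq_mul]
    have hcard : (P.filter (fun p => ¬ z < p)).card ≤ z := by
      have hsub : P.filter (fun p => ¬ z < p) ⊆ Icc 1 z := by
        intro p hp
        rw [Finset.mem_filter] at hp
        have h1 := Finset.mem_Icc.1 (Finset.mem_filter.1 hp.1).1
        exact Finset.mem_Icc.2 ⟨h1.1, not_lt.1 hp.2⟩
      calc (P.filter (fun p => ¬ z < p)).card ≤ (Icc 1 z).card := Finset.card_le_card hsub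
        _ = z := by rw [Nat.card_Icc]; omega
    have hcard' : ((P.filter (fun p => ¬ z < p)).card : ℝ) ≤ z := by exact_mod_cast hcard
    calc ((P.filter (fun p => ¬ z < p)).card : ℝ) * (2 * C₁) ≤ z * (2 * C₁) :=
          mul_le_mul_of_nonneg_right hcard' (by positivity)
      _ = 2 * C₁ * z := by ring
  -- splitting
  have hsplit : ∑ p ∈ P, f p * Rf c X a p =
      ∑ p ∈ P.filter (fun p => z < p), f p * rf c X a p +
      ∑ p ∈ P.filter (fun p => ¬ z < p), f p * rf c X a p +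
      ∑ p ∈ P, f p * (Rf c X a p - rf c X a p) := by
    rw [Finset.sum_filter_add_sum_filter_not, ← Finset.sum_add_distrib]
    apply Finset.sum_congr rfl
    intro p _
    ring
  have hfil : (Icc 1 N).filter (fun p => p.Prime ∧ z < p) = P.filter (fun p => z < p) := by
    rw [hP, Finset.filter_filter]
  rw [hfil, hid, hsplit]
  have e1 := le_abs_self (∑ p ∈ P.filter (fun p => z < p), f p * rf c X a p)
  have e2 := le_abs_self (∑ p ∈ P.filter (fun p => ¬ z < p), f p * rf c X a p)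
  have e3 := le_abs_self (∑ p ∈ P, f p * (Rf c X a p - rf c X a p))
  have e4 := neg_abs_le (F * ∑ d ∈ T, c d * (1 / (Nat.totient d : ℝ) - 1 / (d : ℝ)))
  have hz0 : (0 : ℝ) ≤ z := Nat.cast_nonneg z
  have hX0 : (0 : ℝ) ≤ X := Nat.cast_nonneg X
  have hp0 : 0 ≤ (N : ℝ) ^ (1 - ε / 2) := by positivity
  have k1 : 2 * C₁ * z ≤ (2 * C₁ + 1 + C₂) * z := by nlinarith
  have k2 : (X : ℝ) ≤ (2 * C₁ + 1 + C₂) * X := by nlinarith
  have k3 : C₂ * (N : ℝ) ^ (1 - ε / 2) ≤ (2 * C₁ + 1 + C₂) * (N : ℝ) ^ (1 - ε / 2) := by nlinarith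
  have k4 : (2 * C₁ + 1 + C₂) * (z + X + (N : ℝ) ^ (1 - ε / 2)) =
      (2 * C₁ + 1 + C₂) * z + (2 * C₁ + 1 + C₂) * X +
        (2 * C₁ + 1 + C₂) * (N : ℝ) ^ (1 - ε / 2) := by ring
  rw [k4]
  linarith

end Pool.Agent.W419.RV
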